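import Pool.Agent.H560R3.GB.RobFin

/-!
# The Hardy-Littlewood formula for the Goldbach representations after the deletion of primes

Definitions: `Pool.Agent.H560R3.GB.Defs` and `Pool.Agent.H560R3.GB.RobDefs` (`gD D n`: the number of
ordered representations of `n` as a sum of two primes which are not in `D`;
`HL n = 2 C₂ ∏_{p ∣ n, p > 2} (p - 1) / (p - 2) * n / log^2 n`, the prediction of Hardy and Littlewood
for all primes; `exceptionsD D ε x s`: the number of `m ≤ x` for which
`|gD D (s m) - HL (s m)| ≤ ε HL (s m)` fails; `energy h x s`: the additive energy of order `h` of the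
family `s 1, ..., s x`).

The proof uses the exponential sums of the primes and of their sieve model, the bilinear estimate and
the main term of the starting files `Pool/Agent/H373R2/T7/`.
-/

set_option autoImplicit false

namespace Pool.Agent.Results.MP_629a14_nt.DeletedPrimes

open Finset Pool.Agent.H560R3.GB

lemma energy_eq (h x : ℕ) (s : ℕ → ℕ) :
    Pool.Agent.H373R2.T7.energy h x (fun m => (s m : ℤ)) = energy h x s := by
  unfold energy Pool.Agent.H373R2.T7.energy
  congr 1
  apply filter_congr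
  intro q _
  change (∑ i, ((s (q.1 i) : ℕ) : ℤ) = ∑ i, ((s (q.2 i) : ℕ) : ℤ)) ↔ _
  constructor
  · intro h; exact_mod_cast h
  · intro h; exact_mod_cast h

/-- Let `h ≥ 1`, `C`, `U`, `ε > 0` and `κ > 0` be fixed. There are `c > 0` and `N₀` such that for all
`N ≥ N₀`, for every set `D` of at most `c N / (log N log log N)` primes (that is, of a proportion of
about `c / log log N` of the primes up to `N`) and for every family `s 1, ..., s x` of even integers in
`[κ N, N]` whose additive energy of order `h` is at most `log^C N` times `x ^ (2 h) / N`, all but at most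
`x / log^U N` of the members `n` of the family satisfy `|gD D n - HL n| ≤ ε HL n`. -/
theorem result (h C U : ℕ) (hh : 1 ≤ h) (ε κ : ℝ) (hε : 0 < ε) (hκ : 0 < κ) :
    ∃ c : ℝ, 0 < c ∧ ∃ N₀ : ℕ, ∀ N : ℕ, N₀ ≤ N → ∀ D : Finset ℕ, (∀ p ∈ D, p.Prime) →
      (D.card : ℝ) ≤ c * (N / (Real.log N * Real.log (Real.log N))) → ∀ (x : ℕ) (s : ℕ → ℕ),
      (∀ m ∈ Icc 1 x, Even (s m) ∧ κ * N ≤ s m ∧ s m ≤ N) →
      (energy h x s : ℝ) * N ≤ Real.log N ^ C * (x : ℝ) ^ (2 * h) →
      (exceptionsD D ε x s : ℝ) ≤ x / Real.log N ^ U := by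
  obtain ⟨c, hc, N₀, h0⟩ := mainD h C U hh ε κ hε hκ
  refine ⟨c, hc, N₀, fun N hN D hD1 hD2 x s hs hE => ?_⟩
  obtain ⟨S, h1, h2⟩ := h0 N hN D hD1 hD2 x s hs (by rw [energy_eq]; exact hE)
  refine le_trans ?_ h1
  unfold exceptionsD
  have h3 : (Icc 1 x).filter (fun m => ¬ |(gD D (s m) : ℝ) - HL (s m)| ≤ ε * HL (s m)) ⊆ S := by
    intro m hm
    rw [mem_filter] at hm
    by_contra hc
    exact hm.2 (h2 m hm.1 hc)
  exact_mod_cast card_le_card h3

end Pool.Agent.Results.MP_629a14_nt.DeletedPrimes
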